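import Pool.Agent.H31.MKS.Targets
import Pool.Agent.H56.DPD.ID

/-!
# (IDS) the sum of the defect over the domain is a sum of squares
-/

set_option autoImplicit false

open Finset

namespace Pool.Agent.H39.MKS

open Pool.Agent.H91.LF (par)
open Pool.Agent.H31.DP
open Pool.Agent.H31.DPD (sI IC mulc Oc)
open Pool.Agent.H31.MKS Pool.Agent.H28.GS

/-- the block, as an element of `Fin (J + 1)` -/
def blk (J M : ℕ) (z : ℤ) : Fin (J + 1) :=
  ⟨min ((J : ℤ) * z / (M : ℤ)).toNat J, by omega⟩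

theorem blk_eq {J M : ℕ} (hM : 0 < M) {z : ℤ} (h1 : 1 ≤ z) (h2 : z ≤ M) :
    (((blk J M z : Fin (J + 1)) : ℕ) : ℤ) = (J : ℤ) * z / (M : ℤ) := by
  have hM' : (0 : ℤ) < M := by exact_mod_cast hM
  have h3 : 0 ≤ (J : ℤ) * z / (M : ℤ) :=
    Int.ediv_nonneg (mul_nonneg (by positivity) (by omega)) hM'.le
  have h4 : (J : ℤ) * z / (M : ℤ) ≤ J := by
    have h5 : (J : ℤ) * z ≤ (J : ℤ) * M := mul_le_mul_of_nonneg_left h2 (by positivity)
    calc (J : ℤ) * z / (M : ℤ) ≤ ((J : ℤ) * M) / (M : ℤ) := Int.ediv_le_ediv hM' h5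
      _ = J := Int.mul_ediv_cancel _ hM'.ne'
  unfold blk
  simp only
  omega

/-- the index of the region of `ω` -/
def kap (d J M : ℕ) (ω : Fin (d + 2) → ℤ) : Ix d J := fun q =>
  if q.2 = 0 then blk J M (ω 0 + sI (par ω) q.1) else blk J M (ω 1 + sI (par ω) q.1)

theorem kap_zero {d J M : ℕ} (ω : Fin (d + 2) → ℤ) (I : Finset (Fin d)) :
    kap d J M ω (I, 0) = blk J M (ω 0 + sI (par ω) I) := by
  unfold kap
  simp

theorem kap_one {d J M : ℕ} (ω : Fin (d + 2) → ℤ) (I : Finset (Fin d)) :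
    kap d J M ω (I, 1) = blk J M (ω 1 + sI (par ω) I) := by
  unfold kap
  simp

theorem IC_sI {d M : ℕ} {s : Fin d → ℤ} {y : ℤ} (h : y ∈ IC M s) (I : Finset (Fin d)) :
    1 ≤ y + sI s I ∧ y + sI s I ≤ M := by
  unfold IC at h
  exact (Finset.mem_filter.1 h).2 I

theorem Rg_eq {d J M : ℕ} (hM : 0 < M) (κ : Ix d J) :
    Rg d J M κ = (Oc d M).filter (fun ω => kap d J M ω = κ) := by
  unfold Rg
  refine Finset.filter_congr fun ω hω => ?_
  have h0 : ω 0 ∈ IC M (par ω) := by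
    unfold Oc at hω
    exact (Finset.mem_filter.1 hω).2.1
  have h1 : ω 1 ∈ IC M (par ω) := by
    unfold Oc at hω
    exact (Finset.mem_filter.1 hω).2.2
  have e0 : ∀ I : Finset (Fin d), (((kap d J M ω (I, 0) : Fin (J + 1)) : ℕ) : ℤ) =
      (J : ℤ) * (ω 0 + sI (par ω) I) / (M : ℤ) := by
    intro I
    rw [kap_zero]
    exact blk_eq hM (IC_sI h0 I).1 (IC_sI h0 I).2
  have e1 : ∀ I : Finset (Fin d), (((kap d J M ω (I, 1) : Fin (J + 1)) : ℕ) : ℤ) =
      (J : ℤ) * (ω 1 + sI (par ω) I) / (M : ℤ) := by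
    intro I
    rw [kap_one]
    exact blk_eq hM (IC_sI h1 I).1 (IC_sI h1 I).2
  constructor
  · intro h
    funext q
    obtain ⟨I, a⟩ := q
    obtain ⟨h2, h3⟩ := h I
    apply Fin.ext
    have ha : a = 0 ∨ a = 1 := by
      fin_cases a
      · exact Or.inl rfl
      · exact Or.inr rfl
    rcases ha with rfl | rfl
    · rw [← e0 I] at h2
      exact_mod_cast h2
    · rw [← e1 I] at h3
      exact_mod_cast h3
  · intro h I
    rw [← e0 I, ← e1 I, h]
    exact ⟨rfl, rfl⟩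

theorem gj_eq {d l J : ℕ} (h : Fin l → ℕ) (W : ℕ) (φ : ℤ → ℤ → ℝ) (p M : ℕ) {κ : Ix d J}
    {ω : Fin (d + 2) → ℤ} (hω : ω ∈ Rg d J M κ) :
    gj h W φ κ p ω = GCH (Hs h (st W J M φ) p) (par ω) (ω 0) *
      GCH (Hs h (st W J M φ) p) (par ω) (ω 1) := by
  unfold Rg at hω
  have h1 := (Finset.mem_filter.1 hω).2
  unfold gj GCH
  congr 1
  · refine Finset.prod_congr rfl fun I _ => ?_
    unfold vt Hs st
    rw [(h1 I).1]
  · refine Finset.prod_congr rfl fun I _ => ?_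
    unfold vt Hs st
    rw [(h1 I).2]

theorem pf_IDS : K_IDS := by
  intro d l h W J φ p M _ hM
  classical
  have h1 : ∑ κ : Ix d J, ∑ ω ∈ Rg d J M κ, dcj h W φ κ p ω =
      ∑ ω ∈ Oc d M, (p : ℝ) ^ d * ind (∀ i : Fin d, (p : ℤ) ∣ par ω i) *
        (bal p (ω 0) * bal p (ω 1) * (GCH (Hs h (st W J M φ) p) (par ω) (ω 0) *
          GCH (Hs h (st W J M φ) p) (par ω) (ω 1))) := by
    rw [← Finset.sum_fiberwise (Oc d M) (kap d J M)]
    refine Finset.sum_congr rfl fun κ _ => ?_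
    rw [← Rg_eq hM κ]
    refine Finset.sum_congr rfl fun ω hω => ?_
    unfold dcj
    rw [gj_eq h W φ p M hω]
  rw [h1, Pool.Agent.H56.DPD.sum_Oc]
  have hm : mulc d p M = (Fintype.piFinset (fun _ : Fin d => Finset.Icc (-(M : ℤ)) M)).filter
      (fun s => ∀ i, (p : ℤ) ∣ s i) := by
    ext s
    unfold mulc mul
    simp only [Finset.mem_filter, Fintype.mem_piFinset]
    exact ⟨fun h => ⟨fun i => (h i).1, fun i => (h i).2⟩, fun h i => ⟨h.1 i, h.2 i⟩⟩
  unfold DDH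
  rw [hm, Finset.mul_sum, Finset.sum_filter]
  refine Finset.sum_congr rfl fun s _ => ?_
  set H := Hs h (st W J M φ) p with hH
  have h2 : ∀ y y' : ℤ, (p : ℝ) ^ d * ind (∀ i : Fin d, (p : ℤ) ∣
      par (Pool.Agent.H56.DPD.pt y y' s) i) *
        (bal p (Pool.Agent.H56.DPD.pt y y' s 0) * bal p (Pool.Agent.H56.DPD.pt y y' s 1) *
          (GCH H (par (Pool.Agent.H56.DPD.pt y y' s)) (Pool.Agent.H56.DPD.pt y y' s 0) *
          GCH H (par (Pool.Agent.H56.DPD.pt y y' s)) (Pool.Agent.H56.DPD.pt y y' s 1))) =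
      (p : ℝ) ^ d * ind (∀ i : Fin d, (p : ℤ) ∣ s i) *
      ((bal p y * GCH H s y) * (bal p y' * GCH H s y')) := by
    intro y y'
    rw [Pool.Agent.H56.DPD.pt_par, Pool.Agent.H56.DPD.pt_zero, Pool.Agent.H56.DPD.pt_one]
    ring
  simp only [h2]
  simp only [← Finset.mul_sum, ← Finset.sum_mul]
  unfold TTH ind
  split_ifs with hs
  · ring
  · ring

end Pool.Agent.H39.MKS
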